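import Mathlib

namespace Pool.Agent.JP

open Finset

/-- PROOF. `log n = o(n^(δ/2))`, `isLittleO_log_rpow_atTop`, or
`log n ≤ n^(δ/4) / (δ/4)` (`Real.log_le_rpow_div`), so `(log n)^2 ≤ (16/δ^2) n^(δ/2)`, and
`n^(δ/2) → ∞`. -/
theorem asyE (M δ : ℝ) (hδ : 0 < δ) : ∃ n₀ : ℕ, ∀ n : ℕ, n₀ ≤ n →
    M * (Real.log n) ^ 2 < (n : ℝ) ^ δ ∧ 1 ≤ Real.log n := by
  have h1 := isLittleO_log_rpow_rpow_atTop (2 : ℝ) hδ
  have hc : (0 : ℝ) < 1 / (2 * (|M| + 1)) := by positivity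
  have h2 := h1.bound hc
  have h3 : ∀ᶠ x : ℝ in Filter.atTop, M * (Real.log x) ^ 2 < x ^ δ ∧ 1 ≤ Real.log x := by
    filter_upwards [h2, Real.tendsto_log_atTop.eventually_ge_atTop 1,
      Filter.eventually_ge_atTop (1 : ℝ)] with x hx hx1 hx2
    refine ⟨?_, hx1⟩
    have hp : 0 < x ^ δ := Real.rpow_pos_of_pos (by linarith) δ
    rw [Real.norm_eq_abs, Real.norm_eq_abs, abs_of_pos hp, Real.rpow_two,
      abs_of_nonneg (sq_nonneg _)] at hx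
    have hM : 0 ≤ |M| := abs_nonneg M
    have h4 : M * (Real.log x) ^ 2 ≤ |M| * (Real.log x) ^ 2 :=
      mul_le_mul_of_nonneg_right (le_abs_self M) (sq_nonneg _)
    have h5 : |M| * (Real.log x) ^ 2 ≤ |M| * (1 / (2 * (|M| + 1)) * x ^ δ) :=
      mul_le_mul_of_nonneg_left hx hM
    have h6 : |M| * (1 / (2 * (|M| + 1)) * x ^ δ) < x ^ δ := by
      have h7 : |M| * (1 / (2 * (|M| + 1))) < 1 := by
        rw [mul_one_div, div_lt_one (by positivity)]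
        linarith
      calc |M| * (1 / (2 * (|M| + 1)) * x ^ δ) = |M| * (1 / (2 * (|M| + 1))) * x ^ δ := by ring
        _ < 1 * x ^ δ := mul_lt_mul_of_pos_right h7 hp
        _ = x ^ δ := one_mul _
    linarith
  obtain ⟨n₀, hn₀⟩ := Filter.eventually_atTop.1 (tendsto_natCast_atTop_atTop.eventually h3)
  exact ⟨n₀, fun n hn => hn₀ n hn⟩

end Pool.Agent.JP
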