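import Mathlib

/-!
Definitions for the corruption bound (module `NoHit`). `L` is a natural number, a vector is a
function `Fin m → Fin L`. For a finite set `P` of vectors of length `m + 1` and `v : Fin L`,
`sec P v` is the set of the tails of the members of `P` which start with `v`, and `mu P` is the
distribution of the first coordinate of a uniformly random member of `P`. `tot g m P x` is the sum
of the values `g ν` and `pr g m P x` is the product of the values `g ν (x i)`, where `ν` runs over
the conditional distributions of the coordinates of a random member of `P`, each given that the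
earlier coordinates are those of `x`.
-/

namespace Pool.Agent.JP

open Finset

/-- `ν` is a probability vector. -/
def IsProb {L : ℕ} (ν : Fin L → ℝ) : Prop := (∀ v, 0 ≤ ν v) ∧ ∑ v, ν v = 1

/-- The tails of the members of `P` which start with `v`. -/
def sec {m L : ℕ} (P : Finset (Fin (m + 1) → Fin L)) (v : Fin L) : Finset (Fin m → Fin L) :=
  univ.filter fun x => (Fin.cons v x : Fin (m + 1) → Fin L) ∈ P

/-- The distribution of the first coordinate of a random member of `P`. -/
noncomputable def mu {m L : ℕ} (P : Finset (Fin (m + 1) → Fin L)) (v : Fin L) : ℝ :=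
  ((sec P v).card : ℝ) / P.card

/-- The sum of `g ν` over the conditional distributions `ν` along `x`. -/
noncomputable def tot {L : ℕ} (g : (Fin L → ℝ) → ℝ) :
    (m : ℕ) → Finset (Fin m → Fin L) → (Fin m → Fin L) → ℝ
  | 0, _, _ => 0
  | m + 1, P, x => g (mu P) + tot g m (sec P (x 0)) (Fin.tail x)

/-- The product of `g ν (x i)` over the conditional distributions `ν` along `x`. -/
noncomputable def pr {L : ℕ} (g : (Fin L → ℝ) → Fin L → ℝ) :
    (m : ℕ) → Finset (Fin m → Fin L) → (Fin m → Fin L) → ℝ
  | 0, _, _ => 1
  | m + 1, P, x => g (mu P) (x 0) * pr g m (sec P (x 0)) (Fin.tail x)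

open Classical in
/-- `1` if less than half of the mass of `ν` remains after truncation at height `c`, else `0`. -/
noncomputable def badI {L : ℕ} (c : ℝ) (ν : Fin L → ℝ) : ℝ :=
  if ∑ v, min (ν v) c < 1 / 2 then 1 else 0

/-- The sum of the truncated conditional probabilities of `v` along `x`. -/
noncomputable def hx {L : ℕ} (c : ℝ) (m : ℕ) (P : Finset (Fin m → Fin L)) (x : Fin m → Fin L)
    (v : Fin L) : ℝ :=
  tot (fun ν => min (ν v) c) m P x

/-- The values `v` which give the sum `L + ζ` with a member of `Y` for some `ζ` in `N`. -/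
def Tset {n L : ℕ} (N : Finset (Fin L)) (Y : Fin n → Fin (2 * L)) : Finset (Fin L) :=
  univ.filter fun v => ∃ j, ∃ ζ ∈ N, (v : ℕ) + (Y j : ℕ) = L + (ζ : ℕ)

/-- No `X i + Y j` is one of the numbers `L + ζ`, `ζ` in `N`. -/
def Free {n L : ℕ} (N : Finset (Fin L)) (X : Fin n → Fin L) (Y : Fin n → Fin (2 * L)) : Prop :=
  ∀ i j, ∀ ζ ∈ N, (X i : ℕ) + (Y j : ℕ) ≠ L + (ζ : ℕ)

/-- The error term of the counting inequality. -/
noncomputable def err (n L K K' T : ℕ) : ℝ :=
  Real.exp (-((K : ℝ) / 128)) + 2 * Real.exp (-((n : ℝ) / 2 ^ 25)) +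
    (L : ℝ) ^ K' * (T : ℝ) ^ K' * Real.exp (-((n : ℝ) / 2 ^ 25))

end Pool.Agent.JP
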