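import Mathlib
import Pool.Agent.JP.LDefs

namespace Pool.Agent.JP

open Finset

/-- Cauchy-Schwarz on a subset -/
private theorem hel_cs {L : ℕ} (hL : 0 < L) (ν : Fin L → ℝ) (h0 : ∀ v, 0 ≤ ν v)
    (s : Finset (Fin L)) : ∑ v ∈ s, √(ν v / L) ≤ √((∑ v ∈ s, ν v) * (s.card / L)) := by
  apply Real.le_sqrt_of_sq_le
  have hL' : (0 : ℝ) < L := by exact_mod_cast hL
  have h1 : ∀ v, √(ν v / L) = √(ν v) * √(1 / L) := fun v => by
    rw [← Real.sqrt_mul (h0 v), mul_one_div]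
  have h2 := Finset.sum_mul_sq_le_sq_mul_sq s (fun v => √(ν v)) (fun _ => √(1 / (L : ℝ)))
  simp only [h1]
  refine h2.trans (le_of_eq ?_)
  congr 1
  · exact Finset.sum_congr rfl fun v _ => Real.sq_sqrt (h0 v)
  · rw [Finset.sum_const, Real.sq_sqrt (by positivity), nsmul_eq_mul, mul_one_div]

/-- PROOF. Cauchy-Schwarz: `√(ν v / L) = √(ν v) * √(1 / L)`, and
`(∑ √(ν v) √(1/L))^2 ≤ (∑ ν v) (∑ 1/L) = 1`; or `√(a b) ≤ (a + b)/2` with `a = ν v`, `b = 1/L`. -/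
theorem hel_one {L : ℕ} (hL : 0 < L) (ν : Fin L → ℝ) (hν : IsProb ν) :
    ∑ v, √(ν v / L) ≤ 1 := by
  have h := hel_cs hL ν hν.1 Finset.univ
  have hL' : (0 : ℝ) < L := by exact_mod_cast hL
  rw [hν.2, Finset.card_univ, Fintype.card_fin, div_self hL'.ne', mul_one, Real.sqrt_one] at h
  exact h

/-- PROOF. Let `Hi` be the set of the `v` with `64 / L < ν v` and `Lo` the rest. Then
`|Hi| * 64 / L + ν(Lo) = ∑ v, min (ν v) (64 / L) < 1/2`, so `|Hi| < L / 128` and `ν(Lo) < 1/2`.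
By Cauchy-Schwarz `∑ v ∈ Hi, √(ν v / L) ≤ √(ν(Hi) * |Hi| / L) ≤ √(1/128) ≤ 9/100` and
`∑ v ∈ Lo, √(ν v / L) ≤ √(ν(Lo) * |Lo| / L) ≤ √(1/2) ≤ 71/100`. The sum is at most `4/5`.
(`√(1/128) ≤ 9/100` as `1/128 = 0.0078125 ≤ 0.0081`, and `√(1/2) ≤ 71/100` as `0.5 ≤ 0.5041`.) -/
theorem hel_bad {L : ℕ} (hL : 0 < L) (ν : Fin L → ℝ) (hν : IsProb ν)
    (hb : ∑ v, min (ν v) (64 / (L : ℝ)) < 1 / 2) :
    ∑ v, √(ν v / L) ≤ 4 / 5 := by
  classical
  have hL' : (0 : ℝ) < L := by exact_mod_cast hL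
  set Hi := Finset.univ.filter fun v : Fin L => 64 / (L : ℝ) < ν v with hHi
  set Lo := Finset.univ.filter fun v : Fin L => ¬ 64 / (L : ℝ) < ν v with hLo
  have hsplit : ∀ f : Fin L → ℝ, ∑ v, f v = ∑ v ∈ Hi, f v + ∑ v ∈ Lo, f v := fun f =>
    (Finset.sum_filter_add_sum_filter_not _ _ _).symm
  have hmin : ∑ v, min (ν v) (64 / (L : ℝ)) = Hi.card * (64 / (L : ℝ)) + ∑ v ∈ Lo, ν v := by
    rw [hsplit]
    congr 1
    · rw [Finset.sum_congr rfl (g := fun _ => 64 / (L : ℝ)), Finset.sum_const, nsmul_eq_mul]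
      intro v hv
      exact min_eq_right (Finset.mem_filter.1 hv).2.le
    · refine Finset.sum_congr rfl fun v hv => min_eq_left ?_
      exact not_lt.1 (Finset.mem_filter.1 hv).2
  rw [hmin] at hb
  have hLo0 : 0 ≤ ∑ v ∈ Lo, ν v := Finset.sum_nonneg fun v _ => hν.1 v
  have hHi0 : 0 ≤ ∑ v ∈ Hi, ν v := Finset.sum_nonneg fun v _ => hν.1 v
  have hsum : ∑ v ∈ Hi, ν v + ∑ v ∈ Lo, ν v = 1 := by rw [← hsplit]; exact hν.2
  have hc0 : (0 : ℝ) ≤ Hi.card * (64 / (L : ℝ)) := by positivity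
  have hc : (Hi.card : ℝ) / L ≤ 1 / 128 := by
    have e : (Hi.card : ℝ) * (64 / (L : ℝ)) = 64 * (Hi.card / L) := by ring
    rw [e] at hb
    linarith
  have hcLo : (Lo.card : ℝ) / L ≤ 1 := by
    rw [div_le_one hL']
    have := Finset.card_le_univ Lo
    rw [Fintype.card_fin] at this
    exact_mod_cast this
  rw [hsplit]
  have h1 : ∑ v ∈ Hi, √(ν v / L) ≤ 9 / 100 := by
    refine (hel_cs hL ν hν.1 Hi).trans ?_
    apply Real.sqrt_le_iff.2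
    refine ⟨by norm_num, ?_⟩
    calc (∑ v ∈ Hi, ν v) * (Hi.card / L) ≤ 1 * (1 / 128) :=
          mul_le_mul (by linarith) hc (by positivity) (by norm_num)
      _ ≤ (9 / 100) ^ 2 := by norm_num
  have h2 : ∑ v ∈ Lo, √(ν v / L) ≤ 71 / 100 := by
    refine (hel_cs hL ν hν.1 Lo).trans ?_
    apply Real.sqrt_le_iff.2
    refine ⟨by norm_num, ?_⟩
    calc (∑ v ∈ Lo, ν v) * (Lo.card / L) ≤ (1 / 2) * 1 :=
          mul_le_mul (by linarith) hcLo (by positivity) (by norm_num)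
      _ ≤ (71 / 100) ^ 2 := by norm_num
  linarith

end Pool.Agent.JP
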