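import Mathlib
import Pool.Agent.JP.LDefs

namespace Pool.Agent.JP

open Finset

variable {m L : ℕ}

theorem mem_sec (P : Finset (Fin (m + 1) → Fin L)) (v : Fin L) (x : Fin m → Fin L) :
    x ∈ sec P v ↔ (Fin.cons v x : Fin (m + 1) → Fin L) ∈ P := by
  simp [sec]

/-- PROOF. `x` in `P` corresponds to the pair `(x 0, Fin.tail x)`; `Finset.sum_sigma'` and
`Finset.sum_bij'`, or `Finset.sum_fiberwise` over `x 0`. -/
theorem sum_sec (P : Finset (Fin (m + 1) → Fin L)) (f : (Fin (m + 1) → Fin L) → ℝ) :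
    ∑ x ∈ P, f x = ∑ v, ∑ x ∈ sec P v, f (Fin.cons v x) := by
  classical
  rw [← Finset.sum_fiberwise P (fun x => x 0) f]
  refine Finset.sum_congr rfl fun v _ => ?_
  refine Finset.sum_bij' (fun x _ => Fin.tail x) (fun x _ => (Fin.cons v x : Fin (m + 1) → Fin L))
    ?_ ?_ ?_ ?_ ?_
  · intro x hx
    rw [Finset.mem_filter] at hx
    rw [mem_sec, ← hx.2, Fin.cons_self_tail]
    exact hx.1
  · intro x hx
    rw [mem_sec] at hx
    rw [Finset.mem_filter]
    exact ⟨hx, by simp⟩
  · intro x hx
    rw [Finset.mem_filter] at hx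
    rw [← hx.2, Fin.cons_self_tail]
  · intro x hx
    simp
  · intro x hx
    rw [Finset.mem_filter] at hx
    rw [← hx.2, Fin.cons_self_tail]

theorem sum_card_sec (P : Finset (Fin (m + 1) → Fin L)) :
    ∑ v, ((sec P v).card : ℝ) = P.card := by
  have h := sum_sec P (fun _ => (1 : ℝ))
  simpa using h.symm

theorem mu_nonneg (P : Finset (Fin (m + 1) → Fin L)) (v : Fin L) : 0 ≤ mu P v := by
  unfold mu
  positivity

theorem mu_prob (P : Finset (Fin (m + 1) → Fin L)) (hP : P.Nonempty) : IsProb (mu P) := by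
  refine ⟨mu_nonneg P, ?_⟩
  have hc : (P.card : ℝ) ≠ 0 := by
    have := hP.card_pos
    positivity
  unfold mu
  rw [← Finset.sum_div, sum_card_sec, div_self hc]

/-- Also for empty `P`, where both sides are `0`. -/
theorem mu_mul (P : Finset (Fin (m + 1) → Fin L)) (v : Fin L) :
    mu P v * P.card = (sec P v).card := by
  rcases P.eq_empty_or_nonempty with rfl | hP
  · simp [mu, sec]
  · have hc : (P.card : ℝ) ≠ 0 := by
      have := hP.card_pos
      positivity
    unfold mu
    rw [div_mul_cancel₀ _ hc]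

/-- A member of `P` has its tail in the section at its first coordinate. -/
theorem tail_mem (P : Finset (Fin (m + 1) → Fin L)) (x : Fin (m + 1) → Fin L) (hx : x ∈ P) :
    Fin.tail x ∈ sec P (x 0) := by
  rw [mem_sec, Fin.cons_self_tail]
  exact hx

end Pool.Agent.JP
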