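import Mathlib
import Pool.Agent.JP.Sec

namespace Pool.Agent.JP

open Finset

variable {L : ℕ}

/-- If `f ν v = g ν v * k ν v` whenever `ν` has nonnegative entries, then the products multiply.
PROOF. Induction on `m` for all `P`, `x`; `mu_nonneg`. -/
theorem pr_mul (f g k : (Fin L → ℝ) → Fin L → ℝ)
    (h : ∀ ν : Fin L → ℝ, (∀ w, 0 ≤ ν w) → ∀ v, f ν v = g ν v * k ν v)
    (m : ℕ) (P : Finset (Fin m → Fin L)) (x : Fin m → Fin L) :
    pr f m P x = pr g m P x * pr k m P x := by
  induction m with
  | zero => simp [pr]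
  | succ m ih =>
    simp only [pr]
    rw [h (mu P) (mu_nonneg P) (x 0), ih]
    ring

/-- PROOF. Induction on `m`; `Real.exp_add`. -/
theorem pr_exp (g : (Fin L → ℝ) → ℝ) (m : ℕ) (P : Finset (Fin m → Fin L)) (x : Fin m → Fin L) :
    pr (fun ν _ => Real.exp (g ν)) m P x = Real.exp (tot g m P x) := by
  induction m with
  | zero => simp [pr, tot]
  | succ m ih =>
    simp only [pr, tot]
    rw [ih, Real.exp_add]

/-- The chain rule. PROOF. Induction on `m` for all `P`. `m = 0`: `P` has exactly one member, since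
there is only one `x`. Step: `mu P (x 0) * (1 / |sec P (x 0)|) = 1 / |P|`, where the section is
not empty because of `tail_mem`. -/
theorem pr_mu (m : ℕ) (P : Finset (Fin m → Fin L)) (x : Fin m → Fin L) (hx : x ∈ P) :
    pr (fun ν v => ν v) m P x = 1 / P.card := by
  induction m with
  | zero =>
    have hP : P = {x} := by
      ext y
      rw [Finset.mem_singleton]
      constructor
      · intro _
        exact Subsingleton.elim y x
      · rintro rfl
        exact hx
    rw [hP]
    simp [pr]
  | succ m ih =>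
    simp only [pr]
    have ht := tail_mem P x hx
    rw [ih (sec P (x 0)) (Fin.tail x) ht]
    have hc : ((sec P (x 0)).card : ℝ) ≠ 0 := by
      have := Finset.card_pos.2 ⟨_, ht⟩
      positivity
    unfold mu
    field_simp

/-- PROOF. Induction on `m`, with `Real.sqrt_mul` and `mu_nonneg`. -/
theorem pr_sqrt (m : ℕ) (P : Finset (Fin m → Fin L)) (x : Fin m → Fin L) :
    pr (fun ν v => √(L * ν v)) m P x = √((L : ℝ) ^ m * pr (fun ν v => ν v) m P x) := by
  induction m with
  | zero => simp [pr]
  | succ m ih =>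
    simp only [pr]
    rw [ih, ← Real.sqrt_mul (mul_nonneg (Nat.cast_nonneg L) (mu_nonneg P (x 0)))]
    congr 1
    ring

/-- If `f` and `g` agree on nonnegative vectors at `v = x i` for all `i`, the products agree. -/
theorem pr_congr (f g : (Fin L → ℝ) → Fin L → ℝ) (m : ℕ) (P : Finset (Fin m → Fin L))
    (x : Fin m → Fin L) (h : ∀ ν : Fin L → ℝ, (∀ w, 0 ≤ ν w) → ∀ i, f ν (x i) = g ν (x i)) :
    pr f m P x = pr g m P x := by
  induction m with
  | zero => simp [pr]
  | succ m ih =>
    simp only [pr]
    rw [h (mu P) (mu_nonneg P) 0, ih (sec P (x 0)) (Fin.tail x)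
      (fun ν hν i => h ν hν i.succ)]

/-- Monotonicity of `tot` in `g` on nonnegative vectors. PROOF. Induction on `m`. -/
theorem tot_mono (f g : (Fin L → ℝ) → ℝ)
    (h : ∀ ν : Fin L → ℝ, (∀ w, 0 ≤ ν w) → f ν ≤ g ν) (m : ℕ) (P : Finset (Fin m → Fin L))
    (x : Fin m → Fin L) : tot f m P x ≤ tot g m P x := by
  induction m with
  | zero => simp [tot]
  | succ m ih =>
    simp only [tot]
    exact add_le_add (h (mu P) (mu_nonneg P)) (ih _ _)

/-- PROOF. Induction on `m`; `Finset.sum_add_distrib`. -/
theorem tot_sum {ι : Type*} (s : Finset ι) (g : ι → (Fin L → ℝ) → ℝ) (m : ℕ)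
    (P : Finset (Fin m → Fin L)) (x : Fin m → Fin L) :
    tot (fun ν => ∑ i ∈ s, g i ν) m P x = ∑ i ∈ s, tot (g i) m P x := by
  induction m with
  | zero => simp [tot]
  | succ m ih =>
    simp only [tot]
    rw [ih, Finset.sum_add_distrib]

/-- PROOF. Induction on `m`. -/
theorem tot_const (c : ℝ) (m : ℕ) (P : Finset (Fin m → Fin L)) (x : Fin m → Fin L) :
    tot (fun _ => c) m P x = m * c := by
  induction m with
  | zero => simp [tot]
  | succ m ih =>
    simp only [tot]
    rw [ih]
    push_cast
    ring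

/-- PROOF. Induction on `m`. -/
theorem tot_affine (a c : ℝ) (g : (Fin L → ℝ) → ℝ) (m : ℕ) (P : Finset (Fin m → Fin L))
    (x : Fin m → Fin L) :
    tot (fun ν => c - a * g ν) m P x = m * c - a * tot g m P x := by
  induction m with
  | zero => simp [tot]
  | succ m ih =>
    simp only [tot]
    rw [ih]
    push_cast
    ring

end Pool.Agent.JP
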