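import Mathlib
import Pool.Agent.JP.Sec

namespace Pool.Agent.JP

open Finset

/-- PROOF. Induction on `m` for all `P`. `m = 0`: both sides are the cardinality of `P`. Step: if
`P` is empty, both sides are `0`. Otherwise by `sum_sec` the sum is
`∑ v, g (mu P) v * ∑ x ∈ sec P v, pr g m (sec P v) x` (for `x' = Fin.cons v x` we have `x' 0 = v`
and `Fin.tail x' = x`), by induction and `g (mu P) v ≥ 0` at most
`∑ v, g (mu P) v * |sec P v| = |P| * ∑ v, mu P v * g (mu P) v ≤ |P|`. -/
theorem sum_pr_le {L : ℕ} (g : (Fin L → ℝ) → Fin L → ℝ)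
    (hg0 : ∀ ν : Fin L → ℝ, (∀ w, 0 ≤ ν w) → ∀ v, 0 ≤ g ν v)
    (hg1 : ∀ ν : Fin L → ℝ, IsProb ν → ∑ v, ν v * g ν v ≤ 1)
    (m : ℕ) (P : Finset (Fin m → Fin L)) :
    ∑ x ∈ P, pr g m P x ≤ P.card := by
  induction m with
  | zero => simp [pr]
  | succ m ih =>
    rcases P.eq_empty_or_nonempty with hP | hP
    · subst hP
      simp
    · rw [sum_sec]
      have h1 : ∀ v, ∑ x ∈ sec P v, pr g (m + 1) P (Fin.cons v x) ≤
          g (mu P) v * (sec P v).card := by
        intro v
        have h2 : ∀ x ∈ sec P v, pr g (m + 1) P (Fin.cons v x) =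
            g (mu P) v * pr g m (sec P v) x := by
          intro x _
          simp [pr]
        rw [Finset.sum_congr rfl h2, ← Finset.mul_sum]
        exact mul_le_mul_of_nonneg_left (ih _) (hg0 _ (mu_nonneg P) v)
      refine (Finset.sum_le_sum fun v _ => h1 v).trans ?_
      have h3 : ∑ v, g (mu P) v * ((sec P v).card : ℝ) = (∑ v, mu P v * g (mu P) v) * P.card := by
        rw [Finset.sum_mul]
        refine Finset.sum_congr rfl fun v _ => ?_
        rw [← mu_mul]; ring
      rw [h3]
      have h4 := hg1 (mu P) (mu_prob P hP)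
      have h5 : (0 : ℝ) ≤ P.card := Nat.cast_nonneg _
      nlinarith

end Pool.Agent.JP
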