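import Mathlib
import Pool.Agent.JP.Sup
import Pool.Agent.JP.PrT
import Pool.Agent.JP.Hel

namespace Pool.Agent.JP

open Finset

private theorem badX_inv {L : ℕ} (f : (Fin L → ℝ) → Fin L → ℝ) (m : ℕ)
    (P : Finset (Fin m → Fin L)) (x : Fin m → Fin L) :
    pr (fun ν v => (f ν v)⁻¹) m P x = (pr f m P x)⁻¹ := by
  induction m with
  | zero => simp [pr]
  | succ m ih =>
    simp only [pr]
    rw [ih, mul_inv]

private theorem badX_sqrt {L : ℕ} (hL : 0 < L) {a : ℝ} (ha : 0 ≤ a) :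
    a * (√((L : ℝ) * a))⁻¹ = √(a / L) := by
  have hL' : (0 : ℝ) < L := by exact_mod_cast hL
  rcases ha.eq_or_lt with h | h
  · simp [← h]
  · rw [Real.sqrt_mul hL'.le, Real.sqrt_div ha]
    have h1 : √a * √a = a := Real.mul_self_sqrt ha
    have h2 : 0 < √a := Real.sqrt_pos.2 h
    have h3 : 0 < √(L : ℝ) := Real.sqrt_pos.2 hL'
    rw [mul_inv, eq_div_iff h3.ne']
    field_simp
    linarith [h1]

/-- PROOF. Let `bd ν = badI (64 / L) ν` and `g ν v = exp (bd ν * log (5/4)) * (√(L * ν v))⁻¹`.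
Then `g ≥ 0`. For a probability vector `ν v * g ν v = exp (bd ν * log (5/4)) * √(ν v / L)` (also if
`ν v = 0`), so `∑ v, ν v * g ν v ≤ 1` by `hel_one` if `bd ν = 0` and by `hel_bad` if `bd ν = 1`.
So `∑ x ∈ P, pr g m P x ≤ |P|` by `sum_pr_le`. For `x ∈ P` (`pr_mul`, `pr_exp`, `tot_affine` or an
induction, `pr_sqrt`, `pr_mu`; for the inverse use `pr_mul` with `1 = √ * √⁻¹` or prove
`pr (fun ν v => (f ν v)⁻¹) = (pr f)⁻¹` by induction)
`pr g m P x = exp (log (5/4) * tot bd m P x) * (√(L^m / |P|))⁻¹`.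
For `x ∈ G` the first factor is at least `exp (log (5/4) * m / 2) ≥ exp (m / 10)`, since
`log (5/4) ≥ 1/5` (`log (5/4) ≥ 1 - 4/5`, `Real.one_sub_inv_le_log_of_pos`). All terms are
nonnegative; so `|G| * exp (m / 10) * (√(L^m / |P|))⁻¹ ≤ |P|`. (If `P` is empty everything is
`0`.) -/
theorem badX {L : ℕ} (hL : 0 < L) (m : ℕ) (P G : Finset (Fin m → Fin L)) (hGP : G ⊆ P)
    (hG : ∀ x ∈ G, (m : ℝ) / 2 < tot (badI (64 / (L : ℝ))) m P x) :
    (G.card : ℝ) * Real.exp (m / 10) ≤ P.card * √((L : ℝ) ^ m / P.card) := by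
  classical
  have hL' : (0 : ℝ) < L := by exact_mod_cast hL
  have hlog : (1 : ℝ) / 5 ≤ Real.log (5 / 4) := by
    have := Real.one_sub_inv_le_log_of_pos (show (0 : ℝ) < 5 / 4 by norm_num)
    norm_num at this
    linarith
  rcases P.eq_empty_or_nonempty with hP | hP
  · subst hP
    have hG0 : G = ∅ := Finset.subset_empty.1 hGP
    simp [hG0]
  have hPc : (0 : ℝ) < P.card := by exact_mod_cast hP.card_pos
  set bd : (Fin L → ℝ) → ℝ := badI (64 / (L : ℝ)) with hbd
  set e : (Fin L → ℝ) → ℝ := fun ν => 0 - (-Real.log (5 / 4)) * bd ν with he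
  set g : (Fin L → ℝ) → Fin L → ℝ := fun ν v => Real.exp (e ν) * (√((L : ℝ) * ν v))⁻¹ with hg
  have hsum : ∑ x ∈ P, pr g m P x ≤ P.card := by
    refine sum_pr_le g (fun ν _ v => by positivity) (fun ν hν => ?_) m P
    have h1 : ∑ v, ν v * g ν v = Real.exp (e ν) * ∑ v, √(ν v / L) := by
      rw [Finset.mul_sum]
      refine Finset.sum_congr rfl fun v _ => ?_
      rw [← badX_sqrt hL (hν.1 v), hg]
      ring
    rw [h1]
    by_cases hb : ∑ v, min (ν v) (64 / (L : ℝ)) < 1 / 2
    · have hbd1 : bd ν = 1 := by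
        rw [hbd]; unfold badI; rw [if_pos hb]
      have he1 : Real.exp (e ν) = 5 / 4 := by
        rw [he]
        simp only [hbd1]
        rw [show (0 : ℝ) - (-Real.log (5 / 4)) * 1 = Real.log (5 / 4) by ring]
        exact Real.exp_log (by norm_num)
      have h2 := hel_bad hL ν hν hb
      rw [he1]
      linarith
    · have hbd0 : bd ν = 0 := by
        rw [hbd]; unfold badI; rw [if_neg hb]
      have he1 : Real.exp (e ν) = 1 := by
        rw [he]
        simp only [hbd0]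
        simp
      have h2 := hel_one hL ν hν
      rw [he1]
      linarith
  have hpr : ∀ x ∈ P, pr g m P x =
      Real.exp (Real.log (5 / 4) * tot bd m P x) * (√((L : ℝ) ^ m / P.card))⁻¹ := by
    intro x hx
    rw [pr_mul g (fun ν _ => Real.exp (e ν)) (fun ν v => (√((L : ℝ) * ν v))⁻¹)
      (fun ν _ v => rfl) m P x, pr_exp, badX_inv, pr_sqrt, pr_mu m P x hx, he, tot_affine]
    congr 2
    · ring
    · rw [mul_one_div]
  have hs : 0 < √((L : ℝ) ^ m / P.card) := Real.sqrt_pos.2 (div_pos (pow_pos hL' m) hPc)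
  have hle : (G.card : ℝ) * (Real.exp (m / 10) * (√((L : ℝ) ^ m / P.card))⁻¹) ≤ P.card := by
    calc (G.card : ℝ) * (Real.exp (m / 10) * (√((L : ℝ) ^ m / P.card))⁻¹)
        = ∑ x ∈ G, Real.exp (m / 10) * (√((L : ℝ) ^ m / P.card))⁻¹ := by
          rw [Finset.sum_const, nsmul_eq_mul]
      _ ≤ ∑ x ∈ G, pr g m P x := by
          refine Finset.sum_le_sum fun x hx => ?_
          rw [hpr x (hGP hx)]
          refine mul_le_mul_of_nonneg_right (Real.exp_le_exp.2 ?_) (inv_nonneg.2 hs.le)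
          have h1 := hG x hx
          have hm : (0 : ℝ) ≤ m := Nat.cast_nonneg m
          calc (m : ℝ) / 10 = 1 / 5 * (m / 2) := by ring
            _ ≤ Real.log (5 / 4) * (m / 2) := by gcongr
            _ ≤ Real.log (5 / 4) * tot bd m P x := by
                refine mul_le_mul_of_nonneg_left h1.le (by linarith)
      _ ≤ ∑ x ∈ P, pr g m P x := by
          refine Finset.sum_le_sum_of_subset_of_nonneg hGP fun x hx _ => ?_
          rw [hpr x hx]
          positivity
      _ ≤ P.card := hsum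
  calc (G.card : ℝ) * Real.exp (m / 10)
      = (G.card : ℝ) * (Real.exp (m / 10) * (√((L : ℝ) ^ m / P.card))⁻¹) *
          √((L : ℝ) ^ m / P.card) := by
        field_simp
    _ ≤ P.card * √((L : ℝ) ^ m / P.card) := mul_le_mul_of_nonneg_right hle hs.le

end Pool.Agent.JP
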