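import Mathlib

namespace Pool.Agent.JP

open Finset

/-- PROOF. The set is `Fintype.piFinset` of the sets `{b | (a τ - b).val < s}`; `b ↦ a τ - b` is a
bijection (involution) of `Fin S`, so each of them has `#{c : Fin S | c.val < s} = s` members.
(If `S = 0` then `s = 0`; for `t = 0` both sides are `1`, for `t > 0` `a` does not exist.) -/
theorem cyc {t S s : ℕ} (hs : s ≤ S) (a : Fin t → Fin S) :
    ((univ : Finset (Fin t → Fin S)).filter fun b => ∀ τ, (a τ - b τ).val < s).card = s ^ t := by
  classical
  have hpi : ((univ : Finset (Fin t → Fin S)).filter fun b => ∀ τ, (a τ - b τ).val < s) =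
      Fintype.piFinset (fun τ => (univ : Finset (Fin S)).filter (fun b => (a τ - b).val < s)) := by
    ext b
    simp [Fintype.mem_piFinset]
  rw [hpi, Fintype.card_piFinset]
  have hone : ∀ c : Fin S, ((univ : Finset (Fin S)).filter (fun b => (c - b).val < s)).card = s := by
    intro c
    haveI : NeZero S := ⟨fun h => by subst h; exact c.elim0⟩
    have h1 : ((univ : Finset (Fin S)).filter (fun b => (c - b).val < s)).card =
        ((univ : Finset (Fin S)).filter (fun b => b.val < s)).card := by
      apply Finset.card_bij (fun b _ => c - b)
      · intro b hb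
        rw [Finset.mem_filter] at hb ⊢
        exact ⟨Finset.mem_univ _, hb.2⟩
      · intro b _ b' _ h
        exact sub_right_injective h
      · intro b hb
        rw [Finset.mem_filter] at hb
        refine ⟨c - b, ?_, sub_sub_cancel c b⟩
        rw [Finset.mem_filter, sub_sub_cancel]
        exact ⟨Finset.mem_univ _, hb.2⟩
    rw [h1]
    have h2 : ((univ : Finset (Fin S)).filter (fun b => b.val < s)).card =
        (Finset.range s).card := by
      apply Finset.card_bij (fun b _ => b.val)
      · intro b hb
        rw [Finset.mem_filter] at hb
        exact Finset.mem_range.mpr hb.2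
      · intro b _ b' _ h
        exact Fin.ext h
      · intro k hk
        rw [Finset.mem_range] at hk
        exact ⟨⟨k, lt_of_lt_of_le hk hs⟩, by rw [Finset.mem_filter]; exact ⟨Finset.mem_univ _, hk⟩, rfl⟩
    rw [h2, Finset.card_range]
  rw [Finset.prod_congr rfl (fun τ _ => hone (a τ)), Finset.prod_const, Finset.card_univ,
    Fintype.card_fin]

end Pool.Agent.JP
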