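import Mathlib
import Pool.Agent.JP.LDefs

namespace Pool.Agent.JP

open Finset

private theorem DiffT_aux {n L : ℕ} (N : Finset (Fin L)) (h : Fin L → ℝ) (B : ℝ)
    (h0 : ∀ v, 0 ≤ h v) (hB : ∀ v, h v ≤ B) (Y Y' : Fin n → Fin (2 * L)) (j : Fin n)
    (hY : ∀ i, i ≠ j → Y i = Y' i) :
    ∑ v ∈ Tset N Y, h v - ∑ v ∈ Tset N Y', h v ≤ N.card * B := by
  classical
  obtain ⟨D, hD⟩ : ∃ D : Finset (Fin L), D = N.biUnion fun ζ =>
      univ.filter fun v : Fin L => (v : ℕ) + (Y j : ℕ) = L + (ζ : ℕ) := ⟨_, rfl⟩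
  have hDc : D.card ≤ N.card := by
    rw [hD]
    have := Finset.card_biUnion_le_card_mul N (fun ζ =>
      univ.filter fun v : Fin L => (v : ℕ) + (Y j : ℕ) = L + (ζ : ℕ)) 1 (by
        intro ζ _
        rw [Finset.card_le_one]
        intro a ha b hb
        rw [Finset.mem_filter] at ha hb
        apply Fin.ext
        have h1 := ha.2
        have h2 := hb.2
        omega)
    simpa using this
  have hsub : Tset N Y ⊆ Tset N Y' ∪ D := by
    intro v hv
    unfold Tset at hv ⊢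
    rw [Finset.mem_filter] at hv
    obtain ⟨-, i, ζ, hζ, he⟩ := hv
    rw [Finset.mem_union]
    by_cases hi : i = j
    · right
      rw [hD, Finset.mem_biUnion]
      refine ⟨ζ, hζ, ?_⟩
      rw [Finset.mem_filter]
      exact ⟨Finset.mem_univ _, by rw [← hi]; exact he⟩
    · left
      rw [Finset.mem_filter]
      exact ⟨Finset.mem_univ _, i, ζ, hζ, by rw [← hY i hi]; exact he⟩
  have h1 : ∑ v ∈ Tset N Y, h v ≤ ∑ v ∈ Tset N Y' ∪ D, h v :=
    Finset.sum_le_sum_of_subset_of_nonneg hsub fun v _ _ => h0 v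
  have h2 : ∑ v ∈ Tset N Y' ∪ D, h v ≤ ∑ v ∈ Tset N Y', h v + ∑ v ∈ D, h v := by
    rw [← Finset.sum_union_inter]
    exact le_add_of_nonneg_right (Finset.sum_nonneg fun v _ => h0 v)
  have h3 : ∑ v ∈ D, h v ≤ N.card * B := by
    by_cases hDe : D.Nonempty
    · obtain ⟨v0, -⟩ := hDe
      have hB0 : 0 ≤ B := (h0 v0).trans (hB v0)
      have h4 : ∑ v ∈ D, h v ≤ D.card • B := Finset.sum_le_card_nsmul D h B fun v _ => hB v
      rw [nsmul_eq_mul] at h4
      refine h4.trans (mul_le_mul_of_nonneg_right ?_ hB0)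
      exact_mod_cast hDc
    · rw [Finset.not_nonempty_iff_eq_empty] at hDe
      rw [hDe, Finset.sum_empty]
      by_cases hNe : N.Nonempty
      · obtain ⟨v0, -⟩ := hNe
        exact mul_nonneg (Nat.cast_nonneg _) ((h0 v0).trans (hB v0))
      · rw [Finset.not_nonempty_iff_eq_empty] at hNe
        rw [hNe]
        simp
  linarith

/-- PROOF. For `y' : Fin (2L)` let `D y' = {v | ∃ ζ ∈ N, v + y' = L + ζ}`; `|D y'| ≤ |N|` because `v`
is determined by `ζ`. If `Y' = Function.update Y j y` then `Tset N Y ⊆ Tset N Y' ∪ D (Y j)` and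
`Tset N Y' ⊆ Tset N Y ∪ D y`, and `∑ v ∈ D, h v ≤ |N| * B`. -/
theorem diffT {n L : ℕ} (N : Finset (Fin L)) (h : Fin L → ℝ) (B : ℝ) (h0 : ∀ v, 0 ≤ h v)
    (hB : ∀ v, h v ≤ B) (Y : Fin n → Fin (2 * L)) (j : Fin n) (y : Fin (2 * L)) :
    |∑ v ∈ Tset N Y, h v - ∑ v ∈ Tset N (Function.update Y j y), h v| ≤ N.card * B := by
  rw [abs_sub_le_iff]
  constructor
  · exact DiffT_aux N h B h0 hB Y (Function.update Y j y) j fun i hi => by
      rw [Function.update_of_ne hi]
  · exact DiffT_aux N h B h0 hB (Function.update Y j y) Y j fun i hi => by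
      rw [Function.update_of_ne hi]

end Pool.Agent.JP
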