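import Mathlib
import Pool.Agent.JP.Sup
import Pool.Agent.JP.PrT

namespace Pool.Agent.JP

open Finset

private theorem hitX_pr_nonneg {L : ℕ} (g : (Fin L → ℝ) → Fin L → ℝ)
    (hg : ∀ ν v, 0 ≤ g ν v) (m : ℕ) (P : Finset (Fin m → Fin L)) (x : Fin m → Fin L) :
    0 ≤ pr g m P x := by
  induction m with
  | zero => simp [pr]
  | succ m ih => exact mul_nonneg (hg _ _) (ih _ _)

/-- PROOF. Let `q ν = ∑ v ∈ T, min (ν v) c` and `g ν v = if v ∈ T then 0 else exp (q ν)`. Then
`g ≥ 0`, and for a probability vector `∑ v, ν v * g ν v = (1 - ∑ v ∈ T, ν v) * exp (q ν)`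
`≤ (1 - q ν) * exp (q ν) ≤ 1`, because `1 - q ≤ exp (-q)`. By `sum_pr_le`
`∑ x ∈ P, pr g m P x ≤ |P|`, all terms are nonnegative, and for `x ∈ G` by `pr_congr`, `pr_exp`,
`tot_sum` `pr g m P x = exp (∑ v ∈ T, hx c m P x v)`. -/
theorem hitX {L : ℕ} (c : ℝ) (T : Finset (Fin L)) (m : ℕ) (P G : Finset (Fin m → Fin L))
    (hGP : G ⊆ P) (hG : ∀ x ∈ G, ∀ i, x i ∉ T) :
    ∑ x ∈ G, Real.exp (∑ v ∈ T, hx c m P x v) ≤ P.card := by
  classical
  set q : (Fin L → ℝ) → ℝ := fun ν => ∑ v ∈ T, min (ν v) c with hq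
  set g : (Fin L → ℝ) → Fin L → ℝ := fun ν v => if v ∈ T then 0 else Real.exp (q ν) with hgdef
  have hg : ∀ ν v, 0 ≤ g ν v := by
    intro ν v
    simp only [hgdef]
    split_ifs
    · exact le_refl _
    · exact (Real.exp_pos _).le
  have hg1 : ∀ ν : Fin L → ℝ, IsProb ν → ∑ v, ν v * g ν v ≤ 1 := by
    intro ν hν
    have h1 : ∑ v, ν v * g ν v = (1 - ∑ v ∈ T, ν v) * Real.exp (q ν) := by
      have h2 : ∀ v, ν v * g ν v =
          ν v * Real.exp (q ν) - (if v ∈ T then ν v * Real.exp (q ν) else 0) := by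
        intro v
        simp only [hgdef]
        split_ifs <;> ring
      rw [Finset.sum_congr rfl (fun v _ => h2 v), Finset.sum_sub_distrib, ← Finset.sum_mul, hν.2,
        Finset.sum_ite_mem, Finset.univ_inter, ← Finset.sum_mul]
      ring
    rw [h1]
    have h3 : q ν ≤ ∑ v ∈ T, ν v := Finset.sum_le_sum fun v _ => min_le_left _ _
    have h4 : 1 - q ν ≤ Real.exp (-(q ν)) := by
      have := Real.add_one_le_exp (-(q ν))
      linarith
    calc (1 - ∑ v ∈ T, ν v) * Real.exp (q ν) ≤ Real.exp (-(q ν)) * Real.exp (q ν) := by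
          apply mul_le_mul_of_nonneg_right _ (Real.exp_pos _).le
          linarith
      _ = 1 := by rw [← Real.exp_add]; simp
  have key := sum_pr_le g (fun ν _ v => hg ν v) hg1 m P
  have heq : ∀ x ∈ G, Real.exp (∑ v ∈ T, hx c m P x v) = pr g m P x := by
    intro x hx'
    have e1 : pr g m P x = pr (fun ν _ => Real.exp (q ν)) m P x := by
      apply pr_congr
      intro ν _ i
      simp only [hgdef]
      rw [if_neg (hG x hx' i)]
    rw [e1, pr_exp]
    congr 1
    rw [hq, tot_sum]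
    rfl
  rw [Finset.sum_congr rfl heq]
  exact le_trans (Finset.sum_le_sum_of_subset_of_nonneg hGP
    (fun x _ _ => hitX_pr_nonneg g hg m P x)) key

end Pool.Agent.JP
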