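import Mathlib
import Pool.Agent.JP.PrT

namespace Pool.Agent.JP

open Finset

variable {L : ℕ}

theorem hx_nonneg (c : ℝ) (hc : 0 ≤ c) (m : ℕ) (P : Finset (Fin m → Fin L)) (x : Fin m → Fin L)
    (v : Fin L) : 0 ≤ hx c m P x v := by
  have h := tot_mono (fun _ : Fin L → ℝ => (0 : ℝ)) (fun ν => min (ν v) c)
    (fun ν hν => le_min (hν v) hc) m P x
  rw [tot_const, mul_zero] at h
  exact h

theorem hx_le (c : ℝ) (m : ℕ) (P : Finset (Fin m → Fin L)) (x : Fin m → Fin L) (v : Fin L) :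
    hx c m P x v ≤ m * c := by
  have h := tot_mono (fun ν => min (ν v) c) (fun _ : Fin L → ℝ => c)
    (fun ν _ => min_le_right _ _) m P x
  rw [tot_const] at h
  exact h

/-- PROOF. For nonnegative `ν` we have `∑ v, min (ν v) c ≥ 1/2 - (1/2) * badI c ν`: if `badI = 0`
the sum is at least `1/2`, otherwise the right side is `0`. Now `tot_sum`, `tot_mono`,
`tot_affine`. -/
theorem sum_hx (c : ℝ) (hc : 0 ≤ c) (m : ℕ) (P : Finset (Fin m → Fin L)) (x : Fin m → Fin L) :
    ((m : ℝ) - tot (badI c) m P x) / 2 ≤ ∑ v, hx c m P x v := by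
  have h1 : ∑ v, hx c m P x v = tot (fun ν => ∑ v, min (ν v) c) m P x :=
    (tot_sum univ (fun v ν => min (ν v) c) m P x).symm
  have h2 := tot_affine (1 / 2) (1 / 2) (badI c) m P x
  rw [h1]
  have h3 : ((m : ℝ) - tot (badI c) m P x) / 2 = tot (fun ν => 1 / 2 - 1 / 2 * badI c ν) m P x := by
    rw [h2]; ring
  rw [h3]
  apply tot_mono
  intro ν hν
  unfold badI
  split_ifs with h
  · have : 0 ≤ ∑ v, min (ν v) c := Finset.sum_nonneg fun v _ => le_min (hν v) hc
    linarith
  · push Not at h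
    linarith

end Pool.Agent.JP
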