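import Mathlib
import Pool.Agent.JP.McA

namespace Pool.Agent.JP

open Finset

/-- Concentration of a function with bounded differences (lower tail).
PROOF. Apply `exp_moment` with `lam = τ / (2 * n * c^2)`. For `Y` in `G` the term of the sum is at
least `exp (lam * τ)`, and all terms are positive, so
`|G| * exp (lam * τ) ≤ q^n * exp (n * lam^2 * c^2)`. Here `n * lam^2 * c^2 = τ^2 / (4 * n * c^2)`
and `lam * τ = τ^2 / (2 * n * c^2)`. -/
theorem mcd {β : Type*} [Fintype β] [Nonempty β] {n : ℕ} (hn : 0 < n) (F : (Fin n → β) → ℝ)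
    (c : ℝ) (hc : 0 < c)
    (hF : ∀ (Y : Fin n → β) (j : Fin n) (y : β), |F Y - F (Function.update Y j y)| ≤ c)
    (τ : ℝ) (hτ : 0 ≤ τ) (G : Finset (Fin n → β))
    (hG : ∀ Y ∈ G, F Y ≤ (∑ Z, F Z) / (Fintype.card β : ℝ) ^ n - τ) :
    (G.card : ℝ) ≤ (Fintype.card β : ℝ) ^ n * Real.exp (-(τ ^ 2 / (4 * n * c ^ 2))) := by
  have hn' : (0 : ℝ) < n := by exact_mod_cast hn
  set lam : ℝ := τ / (2 * n * c ^ 2) with hlam
  have hlam0 : 0 ≤ lam := by positivity
  have key := exp_moment n F c hc.le hF lam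
  have h1 : (G.card : ℝ) * Real.exp (lam * τ) ≤
      ∑ Y, Real.exp (lam * ((∑ Z, F Z) / (Fintype.card β : ℝ) ^ n - F Y)) := by
    calc (G.card : ℝ) * Real.exp (lam * τ) = ∑ _Y ∈ G, Real.exp (lam * τ) := by
          rw [Finset.sum_const, nsmul_eq_mul]
      _ ≤ ∑ Y ∈ G, Real.exp (lam * ((∑ Z, F Z) / (Fintype.card β : ℝ) ^ n - F Y)) := by
          refine Finset.sum_le_sum fun Y hY => ?_
          refine Real.exp_le_exp.2 (mul_le_mul_of_nonneg_left ?_ hlam0)
          have := hG Y hY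
          linarith
      _ ≤ ∑ Y, Real.exp (lam * ((∑ Z, F Z) / (Fintype.card β : ℝ) ^ n - F Y)) :=
          Finset.sum_le_sum_of_subset_of_nonneg (Finset.subset_univ _)
            fun _ _ _ => (Real.exp_pos _).le
  have h2 : (G.card : ℝ) * Real.exp (lam * τ) ≤
      (Fintype.card β : ℝ) ^ n * Real.exp (n * (lam ^ 2 * c ^ 2)) := h1.trans key
  have e1 : -(τ ^ 2 / (4 * n * c ^ 2)) = n * (lam ^ 2 * c ^ 2) - lam * τ := by
    rw [hlam]
    field_simp
    ring
  rw [e1, Real.exp_sub, mul_div_assoc', le_div_iff₀ (Real.exp_pos _)]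
  exact h2

end Pool.Agent.JP
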