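import Mathlib
import Pool.Agent.JP.LDefs

namespace Pool.Agent.JP

open Finset

private theorem MeanT_D {L : ℕ} (N : Finset (Fin L)) (v : Fin L) :
    (univ.filter fun y : Fin (2 * L) => ∃ ζ ∈ N, (v : ℕ) + (y : ℕ) = L + (ζ : ℕ)).card =
      N.card := by
  classical
  have hinj : Function.Injective (fun ζ : Fin L => (⟨L + ζ - v, by omega⟩ : Fin (2 * L))) := by
    intro a b hab
    simp only [Fin.mk.injEq] at hab
    have ha := a.2
    have hb := b.2
    have hv := v.2
    ext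
    omega
  rw [← Finset.card_image_of_injective N hinj]
  congr 1
  ext y
  simp only [mem_filter, mem_univ, true_and, mem_image]
  constructor
  · rintro ⟨ζ, hζ, h⟩
    refine ⟨ζ, hζ, ?_⟩
    ext
    simp only
    omega
  · rintro ⟨ζ, hζ, h⟩
    refine ⟨ζ, hζ, ?_⟩
    have h1 := congrArg (fun y : Fin (2 * L) => (y : ℕ)) h
    simp only at h1
    have hv := v.2
    omega

private theorem MeanT_real {n : ℕ} {p : ℝ} (hp : 0 ≤ p) (hp1 : p ≤ 1) (hx : (n : ℝ) * p ≤ 1) :
    (1 - p) ^ n ≤ 1 - (n : ℝ) * p / 2 := by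
  have h1 : 1 - p ≤ Real.exp (-p) := by
    have := Real.add_one_le_exp (-p)
    linarith
  have h2 : (1 - p) ^ n ≤ Real.exp (-((n : ℝ) * p)) := by
    calc (1 - p) ^ n ≤ (Real.exp (-p)) ^ n := pow_le_pow_left₀ (by linarith) h1 n
      _ = Real.exp (-((n : ℝ) * p)) := by rw [← Real.exp_nat_mul]; congr 1; ring
  refine h2.trans ?_
  have hx0 : 0 ≤ (n : ℝ) * p := by positivity
  generalize (n : ℝ) * p = x at hx hx0
  have h3 : 1 + x ≤ Real.exp x := by
    have := Real.add_one_le_exp x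
    linarith
  have h4 : Real.exp (-x) ≤ 1 / (1 + x) := by
    rw [Real.exp_neg, ← one_div]
    exact one_div_le_one_div_of_le (by linarith) h3
  refine h4.trans ?_
  rw [div_le_iff₀ (by linarith)]
  nlinarith

/-- PROOF. Exchange the sums: the right side is `∑ v, h v * #{Y | v ∈ Tset N Y}`, so it is enough
to show for every `v` that `#{Y | v ∈ Tset N Y} ≥ (2L)^n * (n |N| / (4L))`. For fixed `v` let
`D = {y : Fin (2L) | ∃ ζ ∈ N, v + y = L + ζ}`; `|D| = |N|` because `ζ ↦ L + ζ - v` is injective with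
values in `[1, 2L)`. `v ∈ Tset N Y` iff some `Y j` is in `D`; the number of the `Y` with all
`Y j ∉ D` is `(2L - |D|)^n` (`Fintype.piFinset`, `Fintype.card_piFinset_const`). Let
`p = |N| / (2L)`, `x = n p ≤ 1`. `(1 - p)^n ≤ exp (-x) ≤ 1 - x/2` for `0 ≤ x ≤ 1` (e.g. by
`exp (-x) ≤ 1 - x + x^2/2`, or convexity, or `1/(1+x) ≤ 1 - x/2` and `Real.add_one_le_exp`). So
`#{Y | v ∈ Tset N Y} = (2L)^n (1 - (1-p)^n) ≥ (2L)^n x / 2`. -/
theorem meanT {n L : ℕ} (hL : 0 < L) (N : Finset (Fin L)) (hN : n * N.card ≤ 2 * L)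
    (h : Fin L → ℝ) (h0 : ∀ v, 0 ≤ h v) :
    (2 * (L : ℝ)) ^ n * ((n : ℝ) * N.card / (4 * L)) * ∑ v, h v ≤
      ∑ Y : Fin n → Fin (2 * L), ∑ v ∈ Tset N Y, h v := by
  classical
  have hLr : (0 : ℝ) < L := by exact_mod_cast hL
  have hNL : N.card ≤ L := by
    have := Finset.card_le_univ N
    rwa [Fintype.card_fin] at this
  have key : ∀ v : Fin L, (2 * (L : ℝ)) ^ n * ((n : ℝ) * N.card / (4 * L)) ≤
      ((univ.filter (fun Y : Fin n → Fin (2 * L) => v ∈ Tset N Y)).card : ℝ) := by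
    intro v
    have hD := MeanT_D N v
    obtain ⟨D, hDdef⟩ : ∃ D : Finset (Fin (2 * L)),
      D = univ.filter fun y : Fin (2 * L) => ∃ ζ ∈ N, (v : ℕ) + (y : ℕ) = L + (ζ : ℕ) := ⟨_, rfl⟩
    rw [← hDdef] at hD
    have hneg : (univ.filter (fun Y : Fin n → Fin (2 * L) => ¬ v ∈ Tset N Y)) =
        Fintype.piFinset (fun _ : Fin n => Dᶜ) := by
      ext Y
      simp only [mem_filter, mem_univ, true_and, Fintype.mem_piFinset, mem_compl, hDdef, Tset]
      push Not
      rfl
    have hcard : (univ.filter (fun Y : Fin n → Fin (2 * L) => ¬ v ∈ Tset N Y)).card =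
        (2 * L - N.card) ^ n := by
      rw [hneg, Fintype.card_piFinset_const, Finset.card_compl, Fintype.card_fin, hD]
    have htot := Finset.card_filter_add_card_filter_not (s := (univ : Finset (Fin n → Fin (2 * L))))
      (fun Y => v ∈ Tset N Y)
    rw [hcard, Finset.card_univ, Fintype.card_pi, Finset.prod_const, Fintype.card_fin,
      Finset.card_univ, Fintype.card_fin] at htot
    have htr : ((univ.filter (fun Y : Fin n → Fin (2 * L) => v ∈ Tset N Y)).card : ℝ) +
        (2 * (L : ℝ) - N.card) ^ n = (2 * (L : ℝ)) ^ n := by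
      have h1 : ((2 * L - N.card : ℕ) : ℝ) = 2 * (L : ℝ) - N.card := by
        rw [Nat.cast_sub (by omega)]
        push_cast
        ring
      rw [← h1]
      exact_mod_cast htot
    have hpos : (0 : ℝ) < 2 * (L : ℝ) := by linarith
    have hr := MeanT_real (n := n) (p := (N.card : ℝ) / (2 * L)) (by positivity)
      (by
        rw [div_le_one hpos]
        have : (N.card : ℝ) ≤ L := by exact_mod_cast hNL
        linarith)
      (by
        rw [← mul_div_assoc, div_le_one hpos]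
        exact_mod_cast hN)
    have e1 : (2 * (L : ℝ) - N.card) ^ n = (2 * (L : ℝ)) ^ n * (1 - (N.card : ℝ) / (2 * L)) ^ n := by
      rw [← mul_pow]
      congr 1
      field_simp
    have e2 : (2 * (L : ℝ)) ^ n * (1 - (N.card : ℝ) / (2 * L)) ^ n ≤
        (2 * (L : ℝ)) ^ n * (1 - (n : ℝ) * ((N.card : ℝ) / (2 * L)) / 2) :=
      mul_le_mul_of_nonneg_left hr (by positivity)
    have e3 : (n : ℝ) * ((N.card : ℝ) / (2 * L)) / 2 = (n : ℝ) * N.card / (4 * L) := by
      field_simp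
      ring
    rw [e3] at e2
    rw [e1] at htr
    nlinarith
  have hswap : ∑ Y : Fin n → Fin (2 * L), ∑ v ∈ Tset N Y, h v =
      ∑ v : Fin L, ((univ.filter (fun Y : Fin n → Fin (2 * L) => v ∈ Tset N Y)).card : ℝ) * h v := by
    have e1 : ∀ Y : Fin n → Fin (2 * L), ∑ v ∈ Tset N Y, h v =
        ∑ v : Fin L, if v ∈ Tset N Y then h v else 0 := by
      intro Y
      rw [Finset.sum_ite_mem, Finset.univ_inter]
    simp_rw [e1]
    rw [Finset.sum_comm]
    refine Finset.sum_congr rfl fun v _ => ?_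
    rw [← Finset.sum_filter, Finset.sum_const, nsmul_eq_mul]
  rw [hswap, Finset.mul_sum]
  exact Finset.sum_le_sum fun v _ => mul_le_mul_of_nonneg_right (key v) (h0 v)

end Pool.Agent.JP
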