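import Mathlib

namespace Pool.Agent.JP

open Finset

open scoped Classical in
/-- PROOF. The numbers `ζ` for which there are `i, j` with `X i + Y j = L + ζ` are determined by
`(i, j)`, so there are at most `n^2 = L / 4` of them. -/
theorem noCnt {n L : ℕ} (hL : L = 4 * n ^ 2) (X : Fin n → Fin L) (Y : Fin n → Fin (2 * L)) :
    3 * L ≤ 4 * ((univ : Finset (Fin L)).filter fun ζ : Fin L =>
      ¬ ∃ i j, (X i : ℕ) + (Y j : ℕ) = L + (ζ : ℕ)).card := by
  have h1 : ((univ : Finset (Fin L)).filter fun ζ : Fin L =>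
      ∃ i j, (X i : ℕ) + (Y j : ℕ) = L + (ζ : ℕ)).card ≤ n * n := by
    have hsub : ((univ : Finset (Fin L)).filter fun ζ : Fin L =>
        ∃ i j, (X i : ℕ) + (Y j : ℕ) = L + (ζ : ℕ)) ⊆
        (univ : Finset (Fin n × Fin n)).biUnion fun q =>
          (univ : Finset (Fin L)).filter fun ζ : Fin L =>
            (X q.1 : ℕ) + (Y q.2 : ℕ) = L + (ζ : ℕ) := by
      intro ζ hζ
      obtain ⟨-, i, j, h⟩ := Finset.mem_filter.1 hζ
      exact Finset.mem_biUnion.2 ⟨(i, j), Finset.mem_univ _, Finset.mem_filter.2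
        ⟨Finset.mem_univ _, h⟩⟩
    refine (Finset.card_le_card hsub).trans ((Finset.card_biUnion_le_card_mul _ _ 1
      fun q _ => ?_).trans (le_of_eq ?_))
    · refine Finset.card_le_one.2 fun a ha b hb => ?_
      have h1 := (Finset.mem_filter.1 ha).2
      have h2 := (Finset.mem_filter.1 hb).2
      exact Fin.ext (by omega)
    · simp
  have h2 := Finset.card_filter_add_card_filter_not (s := (univ : Finset (Fin L)))
    (fun ζ : Fin L => ∃ i j, (X i : ℕ) + (Y j : ℕ) = L + (ζ : ℕ))
  rw [Finset.card_univ, Fintype.card_fin] at h2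
  have h3 : n ^ 2 = n * n := sq n
  omega

end Pool.Agent.JP
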