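import Mathlib

namespace Pool.Agent.JP

open Finset

/-- PROOF. For `c : τ` let `P_c = {x | ∃ y, Φ x y = c}`, `Q_c = {y | ∃ x, Φ x y = c}`. If `x ∈ P_c`,
`y ∈ Q_c`, say `Φ x y₁ = c = Φ x₁ y`, then by `hΦ` (`x, y₁, x₁, y`) `Φ x y = Φ x y₁ = c`. So the
fibre of `c` is `P_c × Q_c`, and `∑ c, |P_c| |Q_c| = |α| |β|`. Let `E_c` be the part of `E` in the
fibre. If `|P_c| ≥ θ |α|` and `|Q_c| ≥ θ |β|` then `|E_c| ≤ ε |P_c| |Q_c|` by hypothesis; otherwise
`|E_c| ≤ |P_c| |Q_c| ≤ θ |α| |β|`. Sum over `c`. (Use `open Classical`; with nonnegative reals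
`|E_c| ≤ ε |P_c||Q_c| + θ |α||β|` in all cases.) -/
theorem rect {α β τ : Type*} [Fintype α] [Fintype β] [Fintype τ] (Φ : α → β → τ)
    (hΦ : ∀ x y x' y', Φ x y = Φ x' y' → Φ x y' = Φ x y) (E : Finset (α × β)) (ε θ : ℝ)
    (hε : 0 ≤ ε) (hθ : 0 ≤ θ)
    (hE : ∀ (P : Finset α) (Q : Finset β) (E' : Finset (α × β)), θ * Fintype.card α ≤ P.card →
      θ * Fintype.card β ≤ Q.card → E' ⊆ E → E' ⊆ P ×ˢ Q →
      (∀ x ∈ P, ∀ y ∈ Q, ∀ x' ∈ P, ∀ y' ∈ Q, Φ x y = Φ x' y') →
      (E'.card : ℝ) ≤ ε * (P.card * Q.card)) :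
    (E.card : ℝ) ≤ (ε + Fintype.card τ * θ) * (Fintype.card α * Fintype.card β) := by
  classical
  set P : τ → Finset α := fun c => univ.filter fun x => ∃ y, Φ x y = c with hP
  set Q : τ → Finset β := fun c => univ.filter fun y => ∃ x, Φ x y = c with hQ
  have hfib : ∀ c, ∀ x ∈ P c, ∀ y ∈ Q c, Φ x y = c := by
    intro c x hx y hy
    simp only [hP, hQ, mem_filter, mem_univ, true_and] at hx hy
    obtain ⟨y₁, h1⟩ := hx
    obtain ⟨x₁, h2⟩ := hy
    have := hΦ x y₁ x₁ y (h1.trans h2.symm)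
    rw [this, h1]
  set Ec : τ → Finset (α × β) := fun c => E.filter fun p => Φ p.1 p.2 = c with hEc
  have hEcs : ∀ c, Ec c ⊆ P c ×ˢ Q c := by
    intro c p hp
    simp only [hEc, mem_filter] at hp
    simp only [hP, hQ, mem_product, mem_filter, mem_univ, true_and]
    exact ⟨⟨p.2, hp.2⟩, ⟨p.1, hp.2⟩⟩
  have hsumE : (E.card : ℝ) = ∑ c, ((Ec c).card : ℝ) := by
    have h1 : E.card = ∑ c, (Ec c).card :=
      card_eq_sum_card_fiberwise (f := fun p : α × β => Φ p.1 p.2) (t := univ)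
        (fun p _ => by simp)
    rw [h1]
    push_cast
    rfl
  have hsumR : (Fintype.card α : ℝ) * Fintype.card β = ∑ c, ((P c).card : ℝ) * (Q c).card := by
    have h1 : (univ : Finset (α × β)).card =
        ∑ c, ((univ : Finset (α × β)).filter fun p => Φ p.1 p.2 = c).card :=
      card_eq_sum_card_fiberwise (f := fun p : α × β => Φ p.1 p.2) (t := univ)
        (fun p _ => by simp)
    have h2 : ∀ c, ((univ : Finset (α × β)).filter fun p => Φ p.1 p.2 = c) = P c ×ˢ Q c := by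
      intro c
      ext p
      constructor
      · intro hp
        simp only [mem_filter, mem_univ, true_and] at hp
        simp only [hP, hQ, mem_product, mem_filter, mem_univ, true_and]
        exact ⟨⟨p.2, hp⟩, ⟨p.1, hp⟩⟩
      · intro hp
        rw [mem_product] at hp
        simp only [mem_filter, mem_univ, true_and]
        exact hfib c p.1 hp.1 p.2 hp.2
    rw [card_univ, Fintype.card_prod] at h1
    simp only [h2, card_product] at h1
    exact_mod_cast h1
  have hα : (0 : ℝ) ≤ Fintype.card α := Nat.cast_nonneg _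
  have hβ : (0 : ℝ) ≤ Fintype.card β := Nat.cast_nonneg _
  have hPα : ∀ c, ((P c).card : ℝ) ≤ Fintype.card α := fun c => by
    exact_mod_cast card_le_univ (P c)
  have hQβ : ∀ c, ((Q c).card : ℝ) ≤ Fintype.card β := fun c => by
    exact_mod_cast card_le_univ (Q c)
  have key : ∀ c, ((Ec c).card : ℝ) ≤
      ε * ((P c).card * (Q c).card) + θ * (Fintype.card α * Fintype.card β) := by
    intro c
    have hp0 : (0 : ℝ) ≤ (P c).card := Nat.cast_nonneg _
    have hq0 : (0 : ℝ) ≤ (Q c).card := Nat.cast_nonneg _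
    have hle : ((Ec c).card : ℝ) ≤ (P c).card * (Q c).card := by
      have := card_le_card (hEcs c)
      rw [card_product] at this
      exact_mod_cast this
    have hn1 : 0 ≤ ε * (((P c).card : ℝ) * (Q c).card) := mul_nonneg hε (mul_nonneg hp0 hq0)
    have hn2 : 0 ≤ θ * ((Fintype.card α : ℝ) * Fintype.card β) :=
      mul_nonneg hθ (mul_nonneg hα hβ)
    by_cases h1 : θ * Fintype.card α ≤ (P c).card
    · by_cases h2 : θ * Fintype.card β ≤ (Q c).card
      · have := hE (P c) (Q c) (Ec c) h1 h2 (filter_subset _ _) (hEcs c)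
          (fun x hx y hy x' hx' y' hy' => by rw [hfib c x hx y hy, hfib c x' hx' y' hy'])
        linarith
      · have h3 : ((P c).card : ℝ) * (Q c).card ≤ Fintype.card α * (θ * Fintype.card β) :=
          mul_le_mul (hPα c) (not_le.1 h2).le hq0 hα
        nlinarith
    · have h3 : ((P c).card : ℝ) * (Q c).card ≤ (θ * Fintype.card α) * Fintype.card β :=
        mul_le_mul (not_le.1 h1).le (hQβ c) hq0 (mul_nonneg hθ hα)
      nlinarith
  rw [hsumE]
  calc ∑ c, ((Ec c).card : ℝ) ≤ ∑ c, (ε * ((P c).card * (Q c).card) +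
        θ * (Fintype.card α * Fintype.card β)) := sum_le_sum fun c _ => key c
    _ = (ε + Fintype.card τ * θ) * (Fintype.card α * Fintype.card β) := by
      rw [sum_add_distrib, ← mul_sum, ← hsumR, sum_const, card_univ, nsmul_eq_mul]
      ring

end Pool.Agent.JP
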