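import Mathlib
import Pool.Agent.JP.McB
import Pool.Agent.JP.MeanT
import Pool.Agent.JP.DiffT

namespace Pool.Agent.JP

open Finset

/-- PROOF. `L > 0`. If `|N| = k`, apply `mcd` to `F Y = ∑ v ∈ Tset N Y, h v` with `β = Fin (2L)`,
`c = k * (16 / n)` (`diffT` with `B = 16 / n`; `B ≥ 0`), `τ = k / 128`. By `meanT`
(`n k ≤ n^2 ≤ 2 L`) the mean is at least `(n k / (4 L)) * (n / 4) = n^2 k / (16 L) = k / 64`, so
for `Y ∈ G` `F Y ≤ k/128 ≤ mean - τ`. Finally
`τ^2 / (4 n c^2) = (k^2 / 2^14) / (4 n * 256 k^2 / n^2) = n / 2^24`. -/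
theorem yBad {n L : ℕ} (hL : L = 4 * n ^ 2) (hn : 0 < n) (N : Finset (Fin L))
    (hN0 : 0 < N.card) (hN : N.card ≤ n) (h : Fin L → ℝ) (h0 : ∀ v, 0 ≤ h v)
    (h1 : ∀ v, h v ≤ 16 / (n : ℝ)) (hs : (n : ℝ) / 4 ≤ ∑ v, h v)
    (G : Finset (Fin n → Fin (2 * L)))
    (hG : ∀ Y ∈ G, ∑ v ∈ Tset N Y, h v ≤ (N.card : ℝ) / 128) :
    (G.card : ℝ) ≤ (2 * (L : ℝ)) ^ n * Real.exp (-((n : ℝ) / 2 ^ 24)) := by
  have hLp : 0 < L := by
    rw [hL]
    positivity
  have : Nonempty (Fin (2 * L)) := ⟨⟨0, by omega⟩⟩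
  have hnR : (0 : ℝ) < n := by exact_mod_cast hn
  have hkR : (0 : ℝ) < N.card := by exact_mod_cast hN0
  have hLR : (L : ℝ) = 4 * (n : ℝ) ^ 2 := by rw [hL]; push_cast; ring
  have hLpR : (0 : ℝ) < L := by exact_mod_cast hLp
  have hcard : (Fintype.card (Fin (2 * L)) : ℝ) = 2 * (L : ℝ) := by
    rw [Fintype.card_fin]
    push_cast
    ring
  have hc : (0 : ℝ) < N.card * (16 / (n : ℝ)) := by positivity
  have hnk : n * N.card ≤ 2 * L := by
    have h6 : n * N.card ≤ n * n := Nat.mul_le_mul_left _ hN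
    have h7 : 2 * L = 8 * (n * n) := by
      have : 2 * L = 2 * (4 * n ^ 2) := congrArg (fun z => 2 * z) hL
      rw [this]
      ring
    rw [h7]
    omega
  have hmean := meanT (n := n) hLp N hnk h h0
  have key := mcd hn (fun Y : Fin n → Fin (2 * L) => ∑ v ∈ Tset N Y, h v)
    (N.card * (16 / (n : ℝ))) hc (fun Y j y => diffT N h _ h0 h1 Y j y)
    ((N.card : ℝ) / 128) (by positivity) G (by
      intro Y hY
      have h3 := hG Y hY
      rw [hcard]
      have hpw : (0 : ℝ) < (2 * (L : ℝ)) ^ n := by positivity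
      have h4 : (N.card : ℝ) / 64 ≤ (∑ Z : Fin n → Fin (2 * L), ∑ v ∈ Tset N Z, h v) /
          (2 * (L : ℝ)) ^ n := by
        rw [le_div_iff₀ hpw]
        refine le_trans ?_ hmean
        have h5 : (n : ℝ) * N.card / (4 * L) * (n / 4) = N.card / 64 := by
          rw [hLR]
          field_simp
          ring
        calc (N.card : ℝ) / 64 * (2 * (L : ℝ)) ^ n
            = (2 * (L : ℝ)) ^ n * ((n : ℝ) * N.card / (4 * L)) * (n / 4) := by
              rw [← h5]; ring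
          _ ≤ (2 * (L : ℝ)) ^ n * ((n : ℝ) * N.card / (4 * L)) * ∑ v, h v :=
              mul_le_mul_of_nonneg_left hs (by positivity)
      show ∑ v ∈ Tset N Y, h v ≤ _
      linarith)
  rw [hcard] at key
  have he : ((N.card : ℝ) / 128) ^ 2 / (4 * n * (N.card * (16 / (n : ℝ))) ^ 2) =
      (n : ℝ) / 2 ^ 24 := by
    field_simp
    ring
  rw [he] at key
  exact key

end Pool.Agent.JP
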